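import Pool.Agent.H68.GHY.Targets

/-!
Row AFU of the board ghy: the dual half of the approximate functional equation (helper91).
-/

set_option autoImplicit false

namespace Pool.Agent.H91.GHY

open MeasureTheory Set Pool.Agent.H34.GM Pool.Agent.H34.GZ Pool.Agent.H34.GU Pool.Agent.H34.GA
open Pool.Agent.H68.GHY

/-! ### the windows -/

/-- the weight between two cut-offs -/
noncomputable def W2 (w : ℝ → ℝ) (a b r : ℝ) : ℝ := ∫ v in Ioc a b, w (Real.log r - v)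

theorem w_int {w : ℝ → ℝ} {k : ℝ → ℂ} (h : Win w k) : Integrable w := by
  refine h.cont.integrable_of_hasCompactSupport ?_
  refine HasCompactSupport.intro (isCompact_Icc (a := (-1 : ℝ)) (b := 1)) fun x hx => ?_
  by_contra hne
  exact hx (abs_le.1 (h.supp x hne))

theorem w_int' {w : ℝ → ℝ} {k : ℝ → ℂ} (h : Win w k) (x : ℝ) :
    Integrable fun v => w (x - v) := (w_int h).comp_sub_left x

theorem wq_split {w : ℝ → ℝ} {k : ℝ → ℂ} (h : Win w k) {R0 R : ℝ} (h0 : 0 < R0) (hR : R0 ≤ R)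
    (r : ℝ) : Wq w R r = Wq w R0 r + W2 w (Real.log R0) (Real.log R) r := by
  have hl : Real.log R0 ≤ Real.log R := Real.log_le_log h0 hR
  unfold Wq W2
  rw [← setIntegral_union (Iic_disjoint_Ioc le_rfl) measurableSet_Ioc
    (w_int' h _).integrableOn (w_int' h _).integrableOn, Iic_union_Ioc_eq_Iic hl]

theorem set_le {w : ℝ → ℝ} {k : ℝ → ℂ} (h : Win w k) (x : ℝ) (S : Set ℝ) :
    |∫ v in S, w (x - v)| ≤ 1 := by
  rw [abs_of_nonneg (integral_nonneg fun v => h.nn _)]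
  calc ∫ v in S, w (x - v) ≤ ∫ v, w (x - v) :=
        setIntegral_le_integral (w_int' h x) (Filter.Eventually.of_forall fun v => h.nn _)
    _ = 1 := by rw [integral_sub_left_eq_self w volume x, h.one]

theorem set_zero {w : ℝ → ℝ} {k : ℝ → ℂ} (h : Win w k) {x b : ℝ} {S : Set ℝ}
    (hS : ∀ v ∈ S, v ≤ b) (hx : b + 1 < x) : ∫ v in S, w (x - v) = 0 := by
  refine setIntegral_eq_zero_of_forall_eq_zero fun v hv => ?_
  by_contra hne
  have h1 := (abs_le.1 (h.supp _ hne)).2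
  have h2 := hS v hv
  linarith

theorem set_meas {w : ℝ → ℝ} {k : ℝ → ℂ} (h : Win w k) (S : Set ℝ) :
    Measurable fun r : ℝ => ∫ v in S, w (Real.log r - v) := by
  have h1 : StronglyMeasurable fun p : ℝ × ℝ => w (Real.log p.1 - p.2) :=
    (h.cont.measurable.comp
      ((Real.measurable_log.comp measurable_fst).sub measurable_snd)).stronglyMeasurable
  exact (h1.integral_prod_right' (ν := volume.restrict S)).measurable

/-- the weight as a Fourier integral -/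
noncomputable def cc (a b τ : ℝ) : ℂ :=
  ∫ v in Ioc a b, Complex.exp (((-(τ * v) : ℝ) : ℂ) * Complex.I)

theorem cc_le {a b : ℝ} (hab : a ≤ b) (τ : ℝ) : ‖cc a b τ‖ ≤ b - a := by
  unfold cc
  have h1 : ∀ v ∈ Ioc a b, ‖Complex.exp (((-(τ * v) : ℝ) : ℂ) * Complex.I)‖ ≤ 1 := fun v _ => by
    rw [Complex.norm_exp_ofReal_mul_I]
  have h2 := norm_setIntegral_le_of_norm_le_const (μ := volume) (s := Ioc a b) (C := 1)
    measure_Ioc_lt_top h1
  rwa [one_mul, Real.volume_real_Ioc_of_le hab] at h2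

theorem cc_cont {a b : ℝ} : Continuous (cc a b) := by
  unfold cc
  refine continuous_of_dominated (bound := fun _ => 1) (fun τ => ?_) (fun τ => ?_) ?_ ?_
  · exact (Continuous.aestronglyMeasurable (by fun_prop))
  · exact Filter.Eventually.of_forall fun v => by rw [Complex.norm_exp_ofReal_mul_I]
  · exact integrable_const 1
  · exact Filter.Eventually.of_forall fun v => by fun_prop

theorem w2_ft {w : ℝ → ℝ} {k : ℝ → ℂ} (h : Win w k) (a b r : ℝ) :
    (W2 w a b r : ℂ) = ∫ τ : ℝ, k τ * cc a b τ *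
      Complex.exp (((τ * Real.log r : ℝ) : ℂ) * Complex.I) := by
  unfold W2
  rw [← integral_complex_ofReal]
  have h1 : ∀ v : ℝ, ((w (Real.log r - v) : ℝ) : ℂ) =
      ∫ τ : ℝ, k τ * Complex.exp (((τ * (Real.log r - v) : ℝ) : ℂ) * Complex.I) := fun v => h.ft _
  simp only [h1]
  have hI : Integrable (Function.uncurry fun v τ : ℝ =>
      k τ * Complex.exp (((τ * (Real.log r - v) : ℝ) : ℂ) * Complex.I))
      ((volume.restrict (Ioc a b)).prod volume) := by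
    have h2 : Integrable (fun p : ℝ × ℝ => (1 : ℂ) * k p.2)
        ((volume.restrict (Ioc a b)).prod volume) :=
      Integrable.mul_prod (integrable_const (1 : ℂ)) h.cint
    refine h2.mono ?_ (Filter.Eventually.of_forall fun p => ?_)
    · refine AEStronglyMeasurable.mul ?_ (Continuous.aestronglyMeasurable (by fun_prop))
      exact h.cint.aestronglyMeasurable.comp_snd
    · show ‖k p.2 * Complex.exp _‖ ≤ ‖(1 : ℂ) * k p.2‖
      rw [norm_mul, norm_mul, Complex.norm_exp_ofReal_mul_I, norm_one, mul_one, one_mul]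
  rw [integral_integral_swap hI]
  refine integral_congr_ae (Filter.Eventually.of_forall fun τ => ?_)
  show ∫ v in Ioc a b, k τ * Complex.exp (((τ * (Real.log r - v) : ℝ) : ℂ) * Complex.I) = _
  have h3 : ∀ v : ℝ, k τ * Complex.exp (((τ * (Real.log r - v) : ℝ) : ℂ) * Complex.I) =
      k τ * Complex.exp (((τ * Real.log r : ℝ) : ℂ) * Complex.I) *
        Complex.exp (((-(τ * v) : ℝ) : ℂ) * Complex.I) := by
    intro v
    rw [mul_assoc, ← Complex.exp_add]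
    congr 2
    push_cast
    ring
  simp only [h3]
  rw [integral_const_mul]
  unfold cc
  ring

/-! ### the terms -/

/-- the power on the critical line -/
noncomputable def gg (m : ℕ) (t r : ℝ) : ℂ :=
  ((r : ℝ) : ℂ) ^ (-((m : ℂ) * ((1 / 2 + (t : ℂ) * Complex.I) + ((m : ℂ) - 1) / 2)) - 1)

/-- one term of the sum -/
noncomputable def tt (m : ℕ) (ψ : ℝ → ℂ) (lam : ℕ → ℂ) (n : ℕ) (r : ℝ) : ℂ :=
  if 1 ≤ n then
    (n : ℂ) ^ (((m : ℂ) - 1) / 2) * lam n * ψ (r * (n : ℝ) ^ (-(1 / (m : ℝ)))) else 0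

/-- the hypotheses on the weight and on the coefficients -/
structure Hy (m J : ℕ) (ψ : ℝ → ℂ) (lam : ℕ → ℂ) (M C1 δ : ℝ) : Prop where
  hm : 1 ≤ m
  hJ : 2 ≤ J
  hd : 0 < δ
  hM : 0 ≤ M
  hC : 0 ≤ C1
  cont : ContinuousOn ψ (Ioi 0)
  psi : ∀ r : ℝ, 0 < r → ‖ψ r‖ ≤ M * min 1 ((r / δ) ^ (m * (m + J)))
  lm : ∀ n : ℕ, 1 ≤ n → ‖(n : ℂ) ^ (((m : ℂ) - 1) / 2) * lam n‖ ≤ C1 * (n : ℝ) ^ m

theorem gg_norm (m : ℕ) (t : ℝ) {r : ℝ} (hr : 0 < r) :
    ‖gg m t r‖ = r ^ (-((m : ℝ) ^ 2 / 2) - 1) := by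
  unfold gg
  rw [Complex.norm_cpow_eq_rpow_re_of_pos hr]
  congr 1
  have h1 : (-((m : ℂ) * ((1 / 2 + (t : ℂ) * Complex.I) + ((m : ℂ) - 1) / 2)) - 1) =
      ((-((m : ℝ) ^ 2 / 2) - 1 : ℝ) : ℂ) + ((-(m * t) : ℝ) : ℂ) * Complex.I := by
    push_cast
    ring
  rw [h1, Complex.add_re, Complex.ofReal_re, Complex.re_ofReal_mul, Complex.I_re, mul_zero,
    add_zero]

theorem gg_cont (m : ℕ) (t : ℝ) : ContinuousOn (gg m t) (Ioi 0) := by
  unfold gg
  exact Complex.continuous_ofReal.continuousOn.cpow_const fun r hr =>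
    Or.inl (by rw [Complex.ofReal_re]; exact hr)

theorem na_pos {m n : ℕ} (hn : 1 ≤ n) : (0 : ℝ) < (n : ℝ) ^ (-(1 / (m : ℝ))) :=
  Real.rpow_pos_of_pos (by exact_mod_cast hn) _

theorem tt_cont {m J : ℕ} {ψ : ℝ → ℂ} {lam : ℕ → ℂ} {M C1 δ : ℝ} (h : Hy m J ψ lam M C1 δ)
    (n : ℕ) : ContinuousOn (tt m ψ lam n) (Ioi 0) := by
  unfold tt
  by_cases hn : 1 ≤ n
  · simp only [hn, if_true]
    refine continuousOn_const.mul ?_
    refine h.cont.comp (Continuous.continuousOn (by fun_prop)) fun r hr => ?_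
    exact mul_pos hr (na_pos hn)
  · simp only [hn, if_false]
    exact continuousOn_const

theorem na_pow {m n J : ℕ} (hm : 1 ≤ m) :
    ((n : ℝ) ^ (-(1 / (m : ℝ)))) ^ (m * (m + J)) = ((n : ℝ) ^ (m + J))⁻¹ := by
  have hn0 : (0 : ℝ) ≤ n := Nat.cast_nonneg n
  have hm0 : (m : ℝ) ≠ 0 := by
    have : 0 < m := hm
    positivity
  have h1 : ((n : ℝ) ^ (-(1 / (m : ℝ)))) ^ m = (n : ℝ)⁻¹ := by
    rw [← Real.rpow_natCast, ← Real.rpow_mul hn0]
    have : -(1 / (m : ℝ)) * m = -1 := by field_simp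
    rw [this, Real.rpow_neg_one]
  rw [pow_mul, h1, inv_pow]

theorem tt_le {m J : ℕ} {ψ : ℝ → ℂ} {lam : ℕ → ℂ} {M C1 δ : ℝ} (h : Hy m J ψ lam M C1 δ)
    (n : ℕ) {r : ℝ} (hr : 0 < r) :
    ‖tt m ψ lam n r‖ ≤ C1 * M * (r / δ) ^ (m * (m + J)) * ((n : ℝ) ^ J)⁻¹ := by
  have hd := h.hd
  have hM := h.hM
  have hC := h.hC
  unfold tt
  by_cases hn : 1 ≤ n
  · rw [if_pos hn, norm_mul]
    have hn1 : (0 : ℝ) < n := by exact_mod_cast hn
    have h1 := h.psi _ (mul_pos hr (na_pos (m := m) hn))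
    have h2 : ‖ψ (r * (n : ℝ) ^ (-(1 / (m : ℝ))))‖ ≤
        M * ((r / δ) ^ (m * (m + J)) * ((n : ℝ) ^ (m + J))⁻¹) := by
      refine h1.trans (mul_le_mul_of_nonneg_left ((min_le_right _ _).trans (le_of_eq ?_)) hM)
      rw [← na_pow h.hm, ← mul_pow]
      congr 1
      ring
    calc ‖(n : ℂ) ^ (((m : ℂ) - 1) / 2) * lam n‖ * ‖ψ (r * (n : ℝ) ^ (-(1 / (m : ℝ))))‖
        ≤ (C1 * (n : ℝ) ^ m) * (M * ((r / δ) ^ (m * (m + J)) * ((n : ℝ) ^ (m + J))⁻¹)) :=
          mul_le_mul (h.lm n hn) h2 (norm_nonneg _) (by positivity)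
      _ = C1 * M * (r / δ) ^ (m * (m + J)) * ((n : ℝ) ^ J)⁻¹ := by
          rw [pow_add]
          field_simp
  · rw [if_neg hn, norm_zero]
    positivity

theorem tt_le' {m J : ℕ} {ψ : ℝ → ℂ} {lam : ℕ → ℂ} {M C1 δ : ℝ} (h : Hy m J ψ lam M C1 δ)
    (n : ℕ) {r : ℝ} (hr : 0 < r) : ‖tt m ψ lam n r‖ ≤ C1 * (n : ℝ) ^ m * M := by
  have hM := h.hM
  have hC := h.hC
  unfold tt
  by_cases hn : 1 ≤ n
  · rw [if_pos hn, norm_mul]
    have h1 := h.psi _ (mul_pos hr (na_pos (m := m) hn))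
    have h2 : ‖ψ (r * (n : ℝ) ^ (-(1 / (m : ℝ))))‖ ≤ M := by
      refine h1.trans ?_
      calc M * min 1 _ ≤ M * 1 := mul_le_mul_of_nonneg_left (min_le_left _ _) hM
        _ = M := mul_one M
    exact mul_le_mul (h.lm n hn) h2 (norm_nonneg _) (by positivity)
  · rw [if_neg hn, norm_zero]
    positivity

/-- one term with a weight of bounded support -/
theorem term_bd {m J : ℕ} {ψ : ℝ → ℂ} {lam : ℕ → ℂ} {M C1 δ : ℝ} (h : Hy m J ψ lam M C1 δ)
    (t : ℝ) (W : ℝ → ℝ) (hWm : Measurable W) (hW1 : ∀ r, |W r| ≤ 1) {b : ℝ} (hb : 0 < b)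
    (hW0 : ∀ r, 0 < r → b < r → W r = 0) (n : ℕ) :
    IntegrableOn (fun r => (W r : ℂ) * (tt m ψ lam n r * gg m t r)) (Ioi 0) ∧
    ∫ r in Ioi (0 : ℝ), ‖(W r : ℂ) * (tt m ψ lam n r * gg m t r)‖ ≤
      C1 * M * δ⁻¹ ^ (m * (m + J)) * b ^ (((m * (m + J) : ℕ) : ℝ) - (m : ℝ) ^ 2 / 2) *
        ((n : ℝ) ^ J)⁻¹ := by
  have hd := h.hd
  have hM := h.hM
  have hC := h.hC
  have hm1 : (1 : ℝ) ≤ m := by exact_mod_cast h.hm
  have hJ2 : (2 : ℝ) ≤ J := by exact_mod_cast h.hJ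
  set q : ℝ := ((m * (m + J) : ℕ) : ℝ) - (m : ℝ) ^ 2 / 2 with hq
  have hq1 : 0 ≤ q - 1 := by
    rw [hq]
    push_cast
    nlinarith
  set A : ℝ := C1 * M * δ⁻¹ ^ (m * (m + J)) * b ^ (q - 1) * ((n : ℝ) ^ J)⁻¹ with hA
  have hA0 : 0 ≤ A := by positivity
  have hmeas : AEStronglyMeasurable (fun r => (W r : ℂ) * (tt m ψ lam n r * gg m t r))
      (volume.restrict (Ioi 0)) := by
    refine (Complex.measurable_ofReal.comp hWm).aestronglyMeasurable.mul ?_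
    exact ((tt_cont h n).mul (gg_cont m t)).aestronglyMeasurable measurableSet_Ioi
  have hle : ∀ r ∈ Ioi (0 : ℝ), ‖(W r : ℂ) * (tt m ψ lam n r * gg m t r)‖ ≤
      (Ioc 0 b).indicator (fun _ => A) r := by
    intro r hr
    have hr0 : 0 < r := hr
    by_cases hrb : r ≤ b
    · rw [indicator_of_mem (show r ∈ Ioc 0 b from ⟨hr, hrb⟩), norm_mul, Complex.norm_real,
        norm_mul, gg_norm m t hr0]
      calc ‖W r‖ * (‖tt m ψ lam n r‖ * r ^ (-((m : ℝ) ^ 2 / 2) - 1))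
          ≤ 1 * ((C1 * M * (r / δ) ^ (m * (m + J)) * ((n : ℝ) ^ J)⁻¹) *
            r ^ (-((m : ℝ) ^ 2 / 2) - 1)) := by
            refine mul_le_mul (hW1 r) ?_ (by positivity) zero_le_one
            exact mul_le_mul_of_nonneg_right (tt_le h n hr0) (Real.rpow_nonneg hr0.le _)
        _ = C1 * M * δ⁻¹ ^ (m * (m + J)) * r ^ (q - 1) * ((n : ℝ) ^ J)⁻¹ := by
            have h1 : r ^ (q - 1) = r ^ (m * (m + J)) * r ^ (-((m : ℝ) ^ 2 / 2) - 1) := by
              rw [← Real.rpow_natCast, ← Real.rpow_add hr0]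
              congr 1
              rw [hq]
              ring
            rw [h1, div_eq_mul_inv, mul_pow]
            ring
        _ ≤ A := by
            rw [hA]
            refine mul_le_mul_of_nonneg_right (mul_le_mul_of_nonneg_left ?_ (by positivity))
              (by positivity)
            exact Real.rpow_le_rpow hr0.le hrb hq1
    · rw [hW0 r hr0 (not_le.1 hrb), Complex.ofReal_zero, zero_mul, norm_zero]
      exact indicator_nonneg (fun _ _ => hA0) _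
  have hind : Integrable ((Ioc 0 b).indicator fun _ : ℝ => A) := by
    rw [integrable_indicator_iff measurableSet_Ioc]
    exact integrableOn_const measure_Ioc_lt_top.ne
  have hle' : ∀ᵐ r ∂(volume.restrict (Ioi (0 : ℝ))),
      ‖(W r : ℂ) * (tt m ψ lam n r * gg m t r)‖ ≤ (Ioc 0 b).indicator (fun _ => A) r :=
    (ae_restrict_iff' measurableSet_Ioi).2 (Filter.Eventually.of_forall hle)
  refine ⟨Integrable.mono' hind.restrict hmeas hle', ?_⟩
  calc ∫ r in Ioi (0 : ℝ), ‖(W r : ℂ) * (tt m ψ lam n r * gg m t r)‖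
      ≤ ∫ r in Ioi (0 : ℝ), (Ioc 0 b).indicator (fun _ => A) r :=
        integral_mono_of_nonneg (Filter.Eventually.of_forall fun r => norm_nonneg _)
          hind.restrict hle'
    _ = A * b := by
        rw [setIntegral_indicator measurableSet_Ioc, setIntegral_const,
          inter_eq_right.2 Ioc_subset_Ioi_self, Real.volume_real_Ioc_of_le hb.le, sub_zero,
          smul_eq_mul, mul_comm]
    _ = C1 * M * δ⁻¹ ^ (m * (m + J)) * b ^ q * ((n : ℝ) ^ J)⁻¹ := by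
        have h1 : b ^ q = b ^ (q - 1) * b := by
          rw [← Real.rpow_add_one hb.ne']
          congr 1
          ring
        rw [hA, h1]
        ring

theorem nJ_sum {J : ℕ} (hJ : 2 ≤ J) : Summable fun n : ℕ => ((n : ℝ) ^ J)⁻¹ :=
  Real.summable_nat_pow_inv.2 (by omega)

/-- the integral of the sum -/
theorem hw_sum {m J : ℕ} {ψ : ℝ → ℂ} {lam : ℕ → ℂ} {M C1 δ : ℝ} (h : Hy m J ψ lam M C1 δ)
    (t : ℝ) (W : ℝ → ℝ) (hWm : Measurable W) (hW1 : ∀ r, |W r| ≤ 1) {b : ℝ} (hb : 0 < b)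
    (hW0 : ∀ r, 0 < r → b < r → W r = 0) :
    HasSum (fun n => ∫ r in Ioi (0 : ℝ), (W r : ℂ) * (tt m ψ lam n r * gg m t r))
      (∫ r in Ioi (0 : ℝ), (W r : ℂ) * (thA m ψ lam r * gg m t r)) := by
  have h1 := hasSum_integral_of_summable_integral_norm
    (F := fun (n : ℕ) (r : ℝ) => (W r : ℂ) * (tt m ψ lam n r * gg m t r))
    (μ := volume.restrict (Ioi (0 : ℝ)))
    (fun n => (term_bd h t W hWm hW1 hb hW0 n).1)
    (Summable.of_nonneg_of_le (fun n => integral_nonneg fun r => norm_nonneg _)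
      (fun n => (term_bd h t W hWm hW1 hb hW0 n).2) ((nJ_sum h.hJ).mul_left _))
  have h2 : ∀ r : ℝ, ∑' n : ℕ, (W r : ℂ) * (tt m ψ lam n r * gg m t r) =
      (W r : ℂ) * (thA m ψ lam r * gg m t r) := by
    intro r
    rw [tsum_mul_left, tsum_mul_right]
    rfl
  simp only [h2] at h1
  exact h1

/-! ### the Mellin transform -/

theorem tg_int {m J : ℕ} {ψ : ℝ → ℂ} {lam : ℕ → ℂ} {M C1 δ : ℝ} (h : Hy m J ψ lam M C1 δ)
    (t : ℝ) (n : ℕ) : IntegrableOn (fun r => tt m ψ lam n r * gg m t r) (Ioi 0) := by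
  have hm1 : (1 : ℝ) ≤ m := by exact_mod_cast h.hm
  have hM := h.hM
  have hC := h.hC
  have h1 := (term_bd h t (fun r => (Iic (1 : ℝ)).indicator (fun _ => (1 : ℝ)) r)
    (measurable_const.indicator measurableSet_Iic) (fun r => by
      by_cases hr : r ∈ Iic (1 : ℝ)
      · rw [indicator_of_mem hr, abs_one]
      · rw [indicator_of_notMem hr, abs_zero]
        exact zero_le_one) one_pos (fun r _ hr => by
      rw [indicator_of_notMem (by simpa using hr)]) n).1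
  have h2 : IntegrableOn (fun r => tt m ψ lam n r * gg m t r) (Ioc 0 1) := by
    refine (h1.mono_set Ioc_subset_Ioi_self).congr_fun (fun r hr => ?_) measurableSet_Ioc
    show (((Iic (1 : ℝ)).indicator (fun _ => (1 : ℝ)) r : ℝ) : ℂ) *
      (tt m ψ lam n r * gg m t r) = _
    rw [indicator_of_mem (show r ∈ Iic (1 : ℝ) from hr.2), Complex.ofReal_one, one_mul]
  have h3 : IntegrableOn (fun r => tt m ψ lam n r * gg m t r) (Ioi 1) := by
    have h4 := (integrableOn_Ioi_rpow_of_lt (a := -((m : ℝ) ^ 2 / 2) - 1) (c := 1)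
      (by nlinarith) one_pos).const_mul (C1 * (n : ℝ) ^ m * M)
    refine Integrable.mono' h4 ?_ ?_
    · exact (((tt_cont h n).mul (gg_cont m t)).mono
        (Ioi_subset_Ioi zero_le_one)).aestronglyMeasurable measurableSet_Ioi
    · refine (ae_restrict_iff' measurableSet_Ioi).2 (Filter.Eventually.of_forall fun r hr => ?_)
      have hr0 : (0 : ℝ) < r := lt_trans one_pos hr
      rw [norm_mul, gg_norm m t hr0]
      exact mul_le_mul_of_nonneg_right (tt_le' h n hr0) (Real.rpow_nonneg hr0.le _)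
  rw [← Ioc_union_Ioi_eq_Ioi (zero_le_one : (0 : ℝ) ≤ 1)]
  exact h2.union h3

theorem rpow_cpow {x : ℝ} (hx : 0 < x) (p : ℝ) (z : ℂ) :
    ((x ^ p : ℝ) : ℂ) ^ z = (x : ℂ) ^ ((p : ℂ) * z) := by
  have hx' : (x : ℂ) ≠ 0 := by exact_mod_cast hx.ne'
  have hxp : ((x ^ p : ℝ) : ℂ) ≠ 0 := by exact_mod_cast (Real.rpow_pos_of_pos hx p).ne'
  rw [Complex.cpow_def_of_ne_zero hxp, Complex.cpow_def_of_ne_zero hx',
    ← Complex.ofReal_log (Real.rpow_pos_of_pos hx p).le, ← Complex.ofReal_log hx.le,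
    Real.log_rpow hx]
  congr 1
  push_cast
  ring

theorem mel_term {m J : ℕ} {ψ : ℝ → ℂ} {lam : ℕ → ℂ} {M C1 δ : ℝ} (h : Hy m J ψ lam M C1 δ)
    (t τ : ℝ) {n : ℕ} (hn : 1 ≤ n) :
    ∫ r in Ioi (0 : ℝ), Complex.exp (((τ * Real.log r : ℝ) : ℂ) * Complex.I) *
        (tt m ψ lam n r * gg m t r) =
      lam n * (n : ℂ) ^ (-(1 / 2 + ((t - τ / m : ℝ) : ℂ) * Complex.I)) *
        MelA m ψ (1 / 2 + ((t - τ / m : ℝ) : ℂ) * Complex.I) := by
  have hm0 : (m : ℂ) ≠ 0 := by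
    have : 0 < m := h.hm
    exact_mod_cast this.ne'
  have hn1 : (0 : ℝ) < n := by exact_mod_cast hn
  have hnc : (n : ℂ) ≠ 0 := by exact_mod_cast hn1.ne'
  set s : ℂ := 1 / 2 + ((t - τ / m : ℝ) : ℂ) * Complex.I with hs
  set s' : ℂ := -((m : ℂ) * (s + ((m : ℂ) - 1) / 2)) with hs'
  have h1 : ∀ r ∈ Ioi (0 : ℝ), Complex.exp (((τ * Real.log r : ℝ) : ℂ) * Complex.I) *
      (tt m ψ lam n r * gg m t r) = (n : ℂ) ^ (((m : ℂ) - 1) / 2) * lam n *
        (((r : ℝ) : ℂ) ^ (s' - 1) • ψ ((n : ℝ) ^ (-(1 / (m : ℝ))) * r)) := by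
    intro r hr
    have hr0 : (0 : ℝ) < r := hr
    have hrc : (r : ℂ) ≠ 0 := by exact_mod_cast hr0.ne'
    have h2 : Complex.exp (((τ * Real.log r : ℝ) : ℂ) * Complex.I) * gg m t r =
        ((r : ℝ) : ℂ) ^ (s' - 1) := by
      have h3 : Complex.exp (((τ * Real.log r : ℝ) : ℂ) * Complex.I) =
          (r : ℂ) ^ ((τ : ℂ) * Complex.I) := by
        rw [Complex.cpow_def_of_ne_zero hrc, ← Complex.ofReal_log hr0.le]
        congr 1
        push_cast
        ring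
      rw [h3]
      unfold gg
      rw [← Complex.cpow_add _ _ hrc]
      congr 1
      rw [hs', hs]
      push_cast
      field_simp
      ring
    unfold tt
    rw [if_pos hn, ← h2, smul_eq_mul, mul_comm ((n : ℝ) ^ (-(1 / (m : ℝ)))) r]
    ring
  rw [setIntegral_congr_fun measurableSet_Ioi h1, integral_const_mul]
  have h4 : ∫ r in Ioi (0 : ℝ), ((r : ℝ) : ℂ) ^ (s' - 1) •
      ψ ((n : ℝ) ^ (-(1 / (m : ℝ))) * r) =
      (((n : ℝ) ^ (-(1 / (m : ℝ))) : ℝ) : ℂ) ^ (-s') • mellin ψ s' :=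
    mellin_comp_mul_left ψ s' (na_pos hn)
  have h5 : mellin ψ s' = MelA m ψ s := by
    unfold mellin MelA
    refine setIntegral_congr_fun measurableSet_Ioi fun r _ => ?_
    show ((r : ℝ) : ℂ) ^ (s' - 1) • ψ r = ψ r * ((r : ℝ) : ℂ) ^ (s' - 1)
    rw [smul_eq_mul, mul_comm]
  rw [h4, h5, rpow_cpow hn1, smul_eq_mul]
  have h6 : (((n : ℝ) : ℂ)) = (n : ℂ) := by push_cast; rfl
  have h7 : (n : ℂ) ^ (((m : ℂ) - 1) / 2) * (n : ℂ) ^ (((-(1 / (m : ℝ)) : ℝ) : ℂ) * -s') =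
      (n : ℂ) ^ (-s) := by
    rw [← Complex.cpow_add _ _ hnc]
    congr 1
    rw [hs']
    push_cast
    field_simp
    ring
  rw [h6, ← h7]
  ring

/-- the terms with the smooth weight -/
theorem dn {m J : ℕ} {ψ : ℝ → ℂ} {lam : ℕ → ℂ} {M C1 δ : ℝ} (h : Hy m J ψ lam M C1 δ)
    {w : ℝ → ℝ} {k : ℝ → ℂ} (hw : Win w k) {a b : ℝ} (hab : a ≤ b) (t : ℝ) {n : ℕ}
    (hn : 1 ≤ n) :
    Integrable (fun τ : ℝ => k τ * cc a b τ *
      (lam n * (n : ℂ) ^ (-(1 / 2 + ((t - τ / m : ℝ) : ℂ) * Complex.I)) *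
        MelA m ψ (1 / 2 + ((t - τ / m : ℝ) : ℂ) * Complex.I))) ∧
    ∫ r in Ioi (0 : ℝ), (W2 w a b r : ℂ) * (tt m ψ lam n r * gg m t r) =
      ∫ τ : ℝ, k τ * cc a b τ *
      (lam n * (n : ℂ) ^ (-(1 / 2 + ((t - τ / m : ℝ) : ℂ) * Complex.I)) *
        MelA m ψ (1 / 2 + ((t - τ / m : ℝ) : ℂ) * Complex.I)) := by
  have hkc : Integrable fun τ : ℝ => k τ * cc a b τ := by
    refine Integrable.mono' (hw.cint.norm.mul_const (b - a))
      (hw.cint.aestronglyMeasurable.mul cc_cont.aestronglyMeasurable)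
      (Filter.Eventually.of_forall fun τ => ?_)
    rw [norm_mul]
    exact mul_le_mul_of_nonneg_left (cc_le hab τ) (norm_nonneg _)
  have hI : Integrable (Function.uncurry fun r τ : ℝ => k τ * cc a b τ *
      (Complex.exp (((τ * Real.log r : ℝ) : ℂ) * Complex.I) * (tt m ψ lam n r * gg m t r)))
      ((volume.restrict (Ioi (0 : ℝ))).prod volume) := by
    have h2 : Integrable (fun p : ℝ × ℝ => (tt m ψ lam n p.1 * gg m t p.1) *
        (k p.2 * cc a b p.2)) ((volume.restrict (Ioi (0 : ℝ))).prod volume) :=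
      Integrable.mul_prod (tg_int h t n) hkc
    refine h2.mono ?_ (Filter.Eventually.of_forall fun p => ?_)
    · have h3 : AEStronglyMeasurable (fun p : ℝ × ℝ =>
          Complex.exp (((p.2 * Real.log p.1 : ℝ) : ℂ) * Complex.I))
          ((volume.restrict (Ioi (0 : ℝ))).prod volume) := by
        refine (Measurable.aestronglyMeasurable ?_)
        fun_prop
      refine (h3.mul h2.aestronglyMeasurable).congr (Filter.Eventually.of_forall fun p => ?_)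
      show Complex.exp _ * ((tt m ψ lam n p.1 * gg m t p.1) * (k p.2 * cc a b p.2)) =
        k p.2 * cc a b p.2 * (Complex.exp _ * (tt m ψ lam n p.1 * gg m t p.1))
      ring
    · show ‖k p.2 * cc a b p.2 * (Complex.exp _ * (tt m ψ lam n p.1 * gg m t p.1))‖ ≤
        ‖(tt m ψ lam n p.1 * gg m t p.1) * (k p.2 * cc a b p.2)‖
      rw [norm_mul, norm_mul (Complex.exp _), Complex.norm_exp_ofReal_mul_I, one_mul,
        norm_mul (tt m ψ lam n p.1 * gg m t p.1), mul_comm]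
  have h4 : ∀ τ : ℝ, ∫ r in Ioi (0 : ℝ), k τ * cc a b τ *
      (Complex.exp (((τ * Real.log r : ℝ) : ℂ) * Complex.I) *
        (tt m ψ lam n r * gg m t r)) = k τ * cc a b τ *
      (lam n * (n : ℂ) ^ (-(1 / 2 + ((t - τ / m : ℝ) : ℂ) * Complex.I)) *
        MelA m ψ (1 / 2 + ((t - τ / m : ℝ) : ℂ) * Complex.I)) := by
    intro τ
    rw [integral_const_mul, mel_term h t τ hn]
  constructor
  · have h5 := hI.integral_prod_right
    refine h5.congr (Filter.Eventually.of_forall fun τ => ?_)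
    exact h4 τ
  · have h6 : ∀ r : ℝ, (W2 w a b r : ℂ) * (tt m ψ lam n r * gg m t r) =
        ∫ τ : ℝ, k τ * cc a b τ *
          (Complex.exp (((τ * Real.log r : ℝ) : ℂ) * Complex.I) *
            (tt m ψ lam n r * gg m t r)) := by
      intro r
      rw [w2_ft hw, ← integral_mul_const]
      refine integral_congr_ae (Filter.Eventually.of_forall fun τ => ?_)
      show _ * _ * _ * _ = _
      ring
    simp only [h6]
    rw [integral_integral_swap hI]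
    exact integral_congr_ae (Filter.Eventually.of_forall fun τ => h4 τ)

/-! ### the assembly -/

/-- the term with a weight -/
noncomputable def aT (m : ℕ) (ψ : ℝ → ℂ) (lam : ℕ → ℂ) (t : ℝ) (W : ℝ → ℝ) (n : ℕ) : ℂ :=
  ∫ r in Ioi (0 : ℝ), (W r : ℂ) * (tt m ψ lam n r * gg m t r)

theorem aT_le {m J : ℕ} {ψ : ℝ → ℂ} {lam : ℕ → ℂ} {M C1 δ : ℝ} (h : Hy m J ψ lam M C1 δ)
    (t : ℝ) (W : ℝ → ℝ) (hWm : Measurable W) (hW1 : ∀ r, |W r| ≤ 1) {b : ℝ} (hb : 0 < b)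
    (hW0 : ∀ r, 0 < r → b < r → W r = 0) (n : ℕ) :
    ‖aT m ψ lam t W n‖ ≤ C1 * M * δ⁻¹ ^ (m * (m + J)) *
      b ^ (((m * (m + J) : ℕ) : ℝ) - (m : ℝ) ^ 2 / 2) * ((n : ℝ) ^ J)⁻¹ :=
  (norm_integral_le_integral_norm _).trans (term_bd h t W hWm hW1 hb hW0 n).2

theorem exp_low {m J : ℕ} {δ Q : ℝ} (hd : 0 < δ) (hQ : 2 ≤ Q) (hdQ : δ⁻¹ ≤ Q) :
    δ⁻¹ ^ (m * (m + J)) *
      (Real.exp 1 * (δ / Q)) ^ (((m * (m + J) : ℕ) : ℝ) - (m : ℝ) ^ 2 / 2) ≤
      Real.exp ((m * (m + J) : ℕ) : ℝ) := by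
  set K : ℕ := m * (m + J) with hK
  set q : ℝ := (K : ℝ) - (m : ℝ) ^ 2 / 2 with hq
  have hQ0 : 0 < Q := by linarith
  have hi : 0 < δ⁻¹ := inv_pos.2 hd
  have hKr : (K : ℝ) = (m : ℝ) * (m + J) := by rw [hK]; push_cast; ring
  have hJ0 : (0 : ℝ) ≤ (m : ℝ) * J := by positivity
  have h1 : (Real.exp 1 * (δ / Q)) ^ q = Real.exp q * (δ⁻¹ ^ (-q) * Q ^ (-q)) := by
    rw [Real.mul_rpow (Real.exp_pos 1).le (by positivity), Real.exp_one_rpow,
      ← Real.mul_rpow hi.le hQ0.le, Real.rpow_neg (by positivity), ← Real.inv_rpow (by positivity)]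
    congr 2
    rw [mul_inv, inv_inv, div_eq_mul_inv]
  have h2 : δ⁻¹ ^ K * δ⁻¹ ^ (-q) = δ⁻¹ ^ ((m : ℝ) ^ 2 / 2) := by
    rw [← Real.rpow_natCast, ← Real.rpow_add hi]
    congr 1
    rw [hq]
    ring
  have h3 : δ⁻¹ ^ ((m : ℝ) ^ 2 / 2) ≤ Q ^ ((m : ℝ) ^ 2 / 2) :=
    Real.rpow_le_rpow hi.le hdQ (by positivity)
  have h4 : Q ^ ((m : ℝ) ^ 2 / 2) * Q ^ (-q) ≤ 1 := by
    rw [← Real.rpow_add hQ0]
    refine Real.rpow_le_one_of_one_le_of_nonpos (by linarith) ?_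
    rw [hq, hKr]
    nlinarith
  have h5 : Real.exp q ≤ Real.exp K := by
    refine Real.exp_le_exp.2 ?_
    rw [hq]
    have : (0 : ℝ) ≤ (m : ℝ) ^ 2 / 2 := by positivity
    linarith
  calc δ⁻¹ ^ K * (Real.exp 1 * (δ / Q)) ^ q
      = Real.exp q * ((δ⁻¹ ^ K * δ⁻¹ ^ (-q)) * Q ^ (-q)) := by rw [h1]; ring
    _ ≤ Real.exp q * (Q ^ ((m : ℝ) ^ 2 / 2) * Q ^ (-q)) := by
        rw [h2]
        refine mul_le_mul_of_nonneg_left ?_ (Real.exp_pos q).le
        exact mul_le_mul_of_nonneg_right h3 (Real.rpow_nonneg hQ0.le _)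
    _ ≤ Real.exp K * 1 := mul_le_mul h5 h4 (by positivity) (Real.exp_pos _).le
    _ = Real.exp K := mul_one _

theorem exp_tail {m J : ℕ} (hJ : 2 ≤ J) {δ Q R X ε : ℝ} (hd : 0 < δ) (hQ : 2 ≤ Q)
    (hdQ : δ⁻¹ ≤ Q) (hR : δ ≤ R) (hRQ : R / δ ≤ Q) (hX : (R / δ) ^ m * Q ^ ε ≤ X)
    (hε : (m : ℝ) ^ 2 + 2 * m ≤ ε * ((J : ℝ) - 2)) :
    δ⁻¹ ^ (m * (m + J)) *
      (Real.exp 1 * R) ^ (((m * (m + J) : ℕ) : ℝ) - (m : ℝ) ^ 2 / 2) ≤
      Real.exp ((m * (m + J) : ℕ) : ℝ) * X ^ (J - 2) := by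
  set K : ℕ := m * (m + J) with hK
  set q : ℝ := (K : ℝ) - (m : ℝ) ^ 2 / 2 with hq
  set y : ℝ := R / δ with hy
  have hQ0 : 0 < Q := by linarith
  have hi : 0 < δ⁻¹ := inv_pos.2 hd
  have hy1 : 1 ≤ y := by rw [hy]; exact (one_le_div hd).2 hR
  have hy0 : 0 < y := by linarith
  have hJc : ((J - 2 : ℕ) : ℝ) = (J : ℝ) - 2 := by
    rw [Nat.cast_sub hJ]
    norm_num
  have hKr : (K : ℝ) = (m : ℝ) * (m + J) := by rw [hK]; push_cast; ring
  have hRy : R = y * (δ⁻¹)⁻¹ := by rw [hy, inv_inv]; field_simp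
  have h1 : (Real.exp 1 * R) ^ q = Real.exp q * (y ^ q * δ⁻¹ ^ (-q)) := by
    rw [hRy, Real.mul_rpow (Real.exp_pos 1).le (by positivity), Real.exp_one_rpow,
      Real.mul_rpow hy0.le (by positivity), Real.rpow_neg hi.le, ← Real.inv_rpow hi.le]
  have h2 : δ⁻¹ ^ K * δ⁻¹ ^ (-q) = δ⁻¹ ^ ((m : ℝ) ^ 2 / 2) := by
    rw [← Real.rpow_natCast, ← Real.rpow_add hi]
    congr 1
    rw [hq]
    ring
  have h3 : δ⁻¹ ^ ((m : ℝ) ^ 2 / 2) ≤ Q ^ ((m : ℝ) ^ 2 / 2) :=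
    Real.rpow_le_rpow hi.le hdQ (by positivity)
  have h4 : y ^ q = (y ^ m) ^ (J - 2) * y ^ (2 * (m : ℝ) + (m : ℝ) ^ 2 / 2) := by
    rw [← pow_mul, ← Real.rpow_natCast, ← Real.rpow_add hy0]
    congr 1
    push_cast
    rw [hJc, hq, hKr]
    ring
  have h5 : y ^ (2 * (m : ℝ) + (m : ℝ) ^ 2 / 2) ≤ Q ^ (2 * (m : ℝ) + (m : ℝ) ^ 2 / 2) :=
    Real.rpow_le_rpow hy0.le hRQ (by positivity)
  have h6 : Q ^ (2 * (m : ℝ) + (m : ℝ) ^ 2 / 2) * Q ^ ((m : ℝ) ^ 2 / 2) ≤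
      (Q ^ ε) ^ (J - 2) := by
    rw [← Real.rpow_add hQ0, ← Real.rpow_mul_natCast hQ0.le]
    refine Real.rpow_le_rpow_of_exponent_le (by linarith) ?_
    rw [hJc]
    linarith
  have h7 : Real.exp q ≤ Real.exp K := by
    refine Real.exp_le_exp.2 ?_
    rw [hq]
    have : (0 : ℝ) ≤ (m : ℝ) ^ 2 / 2 := by positivity
    linarith
  calc δ⁻¹ ^ K * (Real.exp 1 * R) ^ q
      = Real.exp q * ((y ^ m) ^ (J - 2) * (y ^ (2 * (m : ℝ) + (m : ℝ) ^ 2 / 2) *
          (δ⁻¹ ^ K * δ⁻¹ ^ (-q)))) := by rw [h1, h4]; ring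
    _ ≤ Real.exp q * ((y ^ m) ^ (J - 2) * (Q ^ (2 * (m : ℝ) + (m : ℝ) ^ 2 / 2) *
          Q ^ ((m : ℝ) ^ 2 / 2))) := by
        rw [h2]
        refine mul_le_mul_of_nonneg_left ?_ (Real.exp_pos q).le
        refine mul_le_mul_of_nonneg_left ?_ (by positivity)
        exact mul_le_mul h5 h3 (Real.rpow_nonneg hi.le _) (Real.rpow_nonneg hQ0.le _)
    _ ≤ Real.exp q * ((y ^ m) ^ (J - 2) * (Q ^ ε) ^ (J - 2)) := by
        refine mul_le_mul_of_nonneg_left ?_ (Real.exp_pos q).le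
        exact mul_le_mul_of_nonneg_left h6 (by positivity)
    _ = Real.exp q * (y ^ m * Q ^ ε) ^ (J - 2) := by rw [mul_pow]
    _ ≤ Real.exp K * X ^ (J - 2) := by
        refine mul_le_mul h7 ?_ (by positivity) (Real.exp_pos _).le
        exact pow_le_pow_left₀ (by positivity) hX _

theorem sd_cont (lam : ℕ → ℂ) (X t : ℝ) (m : ℕ) :
    Continuous fun τ : ℝ => SD lam X (t - τ / m) := by
  unfold SD
  refine continuous_finsetSum _ fun n hn => ?_
  have hn1 : (n : ℂ) ≠ 0 := by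
    have : n ≠ 0 := by
      have := (Finset.mem_Icc.1 hn).1
      omega
    exact_mod_cast this
  refine continuous_const.mul (Continuous.const_cpow (by fun_prop) (Or.inl hn1))

theorem sd_bd (lam : ℕ → ℂ) (X u : ℝ) :
    ‖SD lam X u‖ ≤ ∑ n ∈ Finset.Icc 1 ⌊X⌋₊, ‖lam n‖ := by
  unfold SD
  refine (norm_sum_le _ _).trans (Finset.sum_le_sum fun n hn => ?_)
  have hn1 : 1 ≤ n := (Finset.mem_Icc.1 hn).1
  rw [norm_mul, Complex.norm_natCast_cpow_of_pos hn1]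
  refine mul_le_of_le_one_right (norm_nonneg _) ?_
  refine Real.rpow_le_one_of_one_le_of_nonpos (by exact_mod_cast hn1) ?_
  have h1 : (-(1 / 2 + (u : ℂ) * Complex.I)).re = -(1 / 2) := by
    have h2 : (-(1 / 2 + (u : ℂ) * Complex.I)) =
        ((-(1 / 2) : ℝ) : ℂ) + ((-u : ℝ) : ℂ) * Complex.I := by
      push_cast
      ring
    rw [h2, Complex.add_re, Complex.ofReal_re, Complex.re_ofReal_mul, Complex.I_re, mul_zero,
      add_zero]
  rw [h1]
  norm_num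

/-- the main part -/
theorem d_sum {m J : ℕ} {ψ : ℝ → ℂ} {lam : ℕ → ℂ} {M C1 δ : ℝ} (h : Hy m J ψ lam M C1 δ)
    {w : ℝ → ℝ} {k : ℝ → ℂ} (hw : Win w k) {a b : ℝ} (hab : a ≤ b) (t X B : ℝ)
    (hMel : ∀ t : ℝ, ‖MelA m ψ (1 / 2 + t * Complex.I)‖ ≤ B) :
    ‖∑ n ∈ Finset.Icc 1 ⌊X⌋₊, aT m ψ lam t (W2 w a b) n‖ ≤ (b - a) * B * JK m k lam X t := by
  have hab' : 0 ≤ b - a := by linarith
  have h1 : ∑ n ∈ Finset.Icc 1 ⌊X⌋₊, aT m ψ lam t (W2 w a b) n =
      ∫ τ : ℝ, ∑ n ∈ Finset.Icc 1 ⌊X⌋₊, k τ * cc a b τ *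
      (lam n * (n : ℂ) ^ (-(1 / 2 + ((t - τ / m : ℝ) : ℂ) * Complex.I)) *
        MelA m ψ (1 / 2 + ((t - τ / m : ℝ) : ℂ) * Complex.I)) := by
    rw [integral_finsetSum _ fun n hn => (dn h hw hab t (Finset.mem_Icc.1 hn).1).1]
    exact Finset.sum_congr rfl fun n hn => (dn h hw hab t (Finset.mem_Icc.1 hn).1).2
  have h2 : ∀ τ : ℝ, ‖∑ n ∈ Finset.Icc 1 ⌊X⌋₊, k τ * cc a b τ *
      (lam n * (n : ℂ) ^ (-(1 / 2 + ((t - τ / m : ℝ) : ℂ) * Complex.I)) *
        MelA m ψ (1 / 2 + ((t - τ / m : ℝ) : ℂ) * Complex.I))‖ ≤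
      (b - a) * B * (‖k τ‖ * ‖SD lam X (t - τ / m)‖) := by
    intro τ
    rw [← Finset.mul_sum, ← Finset.sum_mul]
    have h3 : ∑ n ∈ Finset.Icc 1 ⌊X⌋₊,
        lam n * (n : ℂ) ^ (-(1 / 2 + ((t - τ / m : ℝ) : ℂ) * Complex.I)) =
        SD lam X (t - τ / m) := rfl
    rw [h3, norm_mul, norm_mul, norm_mul]
    calc ‖k τ‖ * ‖cc a b τ‖ * (‖SD lam X (t - τ / m)‖ *
          ‖MelA m ψ (1 / 2 + ((t - τ / m : ℝ) : ℂ) * Complex.I)‖)
        ≤ ‖k τ‖ * (b - a) * (‖SD lam X (t - τ / m)‖ * B) := by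
          refine mul_le_mul ?_ ?_ (by positivity) (by positivity)
          · exact mul_le_mul_of_nonneg_left (cc_le hab τ) (norm_nonneg _)
          · exact mul_le_mul_of_nonneg_left (hMel _) (norm_nonneg _)
      _ = (b - a) * B * (‖k τ‖ * ‖SD lam X (t - τ / m)‖) := by ring
  have h4 : Integrable fun τ : ℝ => ‖k τ‖ * ‖SD lam X (t - τ / m)‖ := by
    refine Integrable.mono' (hw.cint.norm.mul_const (∑ n ∈ Finset.Icc 1 ⌊X⌋₊, ‖lam n‖))
      (hw.cint.norm.aestronglyMeasurable.mul (sd_cont lam X t m).norm.aestronglyMeasurable)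
      (Filter.Eventually.of_forall fun τ => ?_)
    rw [norm_mul, norm_norm, norm_norm]
    exact mul_le_mul_of_nonneg_left (sd_bd lam X _) (norm_nonneg _)
  rw [h1]
  refine (norm_integral_le_of_norm_le (h4.const_mul ((b - a) * B))
    (Filter.Eventually.of_forall h2)).trans (le_of_eq ?_)
  rw [integral_const_mul]
  rfl

theorem inv_le2 {J : ℕ} (hJ : 2 ≤ J) (n : ℕ) : ((n : ℝ) ^ J)⁻¹ ≤ ((n : ℝ) ^ 2)⁻¹ := by
  rcases Nat.eq_zero_or_pos n with h0 | h0
  · subst h0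
    rw [Nat.cast_zero, zero_pow (by omega), zero_pow (by omega)]
  · have h1 : (1 : ℝ) ≤ n := by exact_mod_cast h0
    exact inv_anti₀ (by positivity) (pow_le_pow_right₀ h1 hJ)

theorem inv_tail {J : ℕ} (hJ : 2 ≤ J) {X : ℝ} (hX : 0 < X) {n : ℕ} (hn : X < n) :
    ((n : ℝ) ^ J)⁻¹ ≤ (X ^ (J - 2))⁻¹ * ((n : ℝ) ^ 2)⁻¹ := by
  have h0 : (0 : ℝ) < n := hX.trans hn
  rw [← mul_inv]
  refine inv_anti₀ (by positivity) ?_
  calc X ^ (J - 2) * (n : ℝ) ^ 2 ≤ (n : ℝ) ^ (J - 2) * (n : ℝ) ^ 2 :=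
        mul_le_mul_of_nonneg_right (pow_le_pow_left₀ hX.le hn.le _) (by positivity)
    _ = (n : ℝ) ^ J := by
        rw [← pow_add]
        congr 1
        omega

theorem pf_AFU : T_AFU := by
  intro w k hw m ε hm hε
  have hm1 : (1 : ℝ) ≤ m := by exact_mod_cast hm
  obtain ⟨j, hj⟩ := exists_nat_ge (((m : ℝ) ^ 2 + 2 * m) / ε)
  set J : ℕ := j + 2 with hJd
  have hJ : 2 ≤ J := by omega
  have hεJ : (m : ℝ) ^ 2 + 2 * m ≤ ε * ((J : ℝ) - 2) := by
    have h1 : (J : ℝ) - 2 = j := by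
      rw [hJd]
      push_cast
      ring
    have h2 := (div_le_iff₀ hε).1 hj
    rw [h1]
    linarith
  set K : ℕ := m * (m + J) with hK
  set Z : ℝ := ∑' n : ℕ, ((n : ℝ) ^ 2)⁻¹ with hZ
  have hZs : Summable fun n : ℕ => ((n : ℝ) ^ 2)⁻¹ := nJ_sum le_rfl
  have hZ0 : 0 ≤ Z := tsum_nonneg fun n => by positivity
  refine ⟨K, 2 * Real.exp K * Z + 2 / ε, by positivity, ?_⟩
  intro ψ lam M B C1 δ hd hd2 hM hB hC hcont hpsi hlam hMel R Q X hR hQ hdQ hRQ hX t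
  have h : Hy m J ψ lam M C1 δ := ⟨hm, hJ, hd, hM, hC, hcont, hpsi, hlam⟩
  have hQ0 : 0 < Q := by linarith
  have hR0 : 0 < R := lt_of_lt_of_le hd hR
  have he := Real.exp_pos 1
  set R0 : ℝ := δ / Q with hR0d
  have hR00 : 0 < R0 := by positivity
  have hR0R : R0 ≤ R := (div_le_self hd.le (by linarith)).trans hR
  have hlog : Real.log R0 ≤ Real.log R := Real.log_le_log hR00 hR0R
  have hX1 : 1 ≤ X := by
    refine le_trans ?_ hX
    have h1 : 1 ≤ (R / δ) ^ m := one_le_pow₀ ((one_le_div hd).2 hR)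
    have h2 : 1 ≤ Q ^ ε := Real.one_le_rpow (by linarith) hε.le
    nlinarith
  have hX0 : 0 < X := by linarith
  -- the weights
  have hz : ∀ {x b r : ℝ} {S : Set ℝ}, (∀ v ∈ S, v ≤ Real.log x) → 0 < x → 0 < r →
      Real.exp 1 * x < r → ∫ v in S, w (Real.log r - v) = 0 := by
    intro x b r S hS hx hr hxr
    refine set_zero hw hS ?_
    have h1 := Real.log_lt_log (by positivity) hxr
    rw [Real.log_mul (by positivity) hx.ne', Real.log_exp] at h1
    linarith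
  have hW := hw_sum h t (Wq w R) (set_meas hw _) (fun r => set_le hw _ _)
    (b := Real.exp 1 * R) (by positivity)
    (fun r hr hrb => hz (b := 0) (fun v hv => hv) hR0 hr hrb)
  have hRt := aT_le h t (Wq w R) (set_meas hw _) (fun r => set_le hw _ _)
    (b := Real.exp 1 * R) (by positivity)
    (fun r hr hrb => hz (b := 0) (fun v hv => hv) hR0 hr hrb)
  have hR0t := aT_le h t (Wq w R0) (set_meas hw _) (fun r => set_le hw _ _)
    (b := Real.exp 1 * R0) (by positivity)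
    (fun r hr hrb => hz (b := 0) (fun v hv => hv) hR00 hr hrb)
  have hsplit : ∀ n : ℕ, aT m ψ lam t (Wq w R) n =
      aT m ψ lam t (Wq w R0) n + aT m ψ lam t (W2 w (Real.log R0) (Real.log R)) n := by
    intro n
    unfold aT
    rw [← integral_add
      (term_bd h t (Wq w R0) (set_meas hw _) (fun r => set_le hw _ _)
        (b := Real.exp 1 * R0) (by positivity)
        (fun r hr hrb => hz (b := 0) (fun v hv => hv) hR00 hr hrb) n).1
      (term_bd h t (W2 w (Real.log R0) (Real.log R)) (set_meas hw _)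
        (fun r => set_le hw _ _) (b := Real.exp 1 * R) (by positivity)
        (fun r hr hrb => hz (b := 0) (fun v hv => hv.2) hR0 hr hrb) n).1]
    refine integral_congr_ae (Filter.Eventually.of_forall fun r => ?_)
    show (Wq w R r : ℂ) * (tt m ψ lam n r * gg m t r) = _ + _
    rw [wq_split hw hR00 hR0R r]
    push_cast
    ring
  have hHW : HW m w R ψ lam t = ∑' n : ℕ, aT m ψ lam t (Wq w R) n := hW.tsum_eq.symm
  set L : ℕ := ⌊X⌋₊ with hL
  have hsum : Summable fun n : ℕ => aT m ψ lam t (Wq w R) n := hW.summable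
  -- the three parts
  have hJK : 0 ≤ JK m k lam X t := integral_nonneg fun τ => by positivity
  have hlow : ‖∑ n ∈ Finset.range (L + 1), aT m ψ lam t (Wq w R0) n‖ ≤
      C1 * M * Real.exp K * Z := by
    have h1 : ∀ n : ℕ, ‖aT m ψ lam t (Wq w R0) n‖ ≤
        C1 * M * Real.exp K * ((n : ℝ) ^ 2)⁻¹ := by
      intro n
      refine (hR0t n).trans ?_
      have h2 := exp_low (m := m) (J := J) hd hQ hdQ
      calc C1 * M * δ⁻¹ ^ (m * (m + J)) *
            (Real.exp 1 * R0) ^ (((m * (m + J) : ℕ) : ℝ) - (m : ℝ) ^ 2 / 2) * ((n : ℝ) ^ J)⁻¹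
          = C1 * M * (δ⁻¹ ^ (m * (m + J)) *
            (Real.exp 1 * (δ / Q)) ^ (((m * (m + J) : ℕ) : ℝ) - (m : ℝ) ^ 2 / 2)) *
              ((n : ℝ) ^ J)⁻¹ := by rw [hR0d]; ring
        _ ≤ C1 * M * Real.exp K * ((n : ℝ) ^ 2)⁻¹ := by
            refine mul_le_mul ?_ (inv_le2 hJ n) (by positivity) (by positivity)
            exact mul_le_mul_of_nonneg_left h2 (by positivity)
    calc ‖∑ n ∈ Finset.range (L + 1), aT m ψ lam t (Wq w R0) n‖
        ≤ ∑ n ∈ Finset.range (L + 1), C1 * M * Real.exp K * ((n : ℝ) ^ 2)⁻¹ :=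
          (norm_sum_le _ _).trans (Finset.sum_le_sum fun n _ => h1 n)
      _ ≤ ∑' n : ℕ, C1 * M * Real.exp K * ((n : ℝ) ^ 2)⁻¹ :=
          (hZs.mul_left _).sum_le_tsum _ fun n _ => by positivity
      _ = C1 * M * Real.exp K * Z := by rw [tsum_mul_left]
  have htail : ‖∑' n : ℕ, aT m ψ lam t (Wq w R) (n + (L + 1))‖ ≤
      C1 * M * Real.exp K * Z := by
    have h1 : ∀ n : ℕ, ‖aT m ψ lam t (Wq w R) (n + (L + 1))‖ ≤
        C1 * M * Real.exp K * (((n + (L + 1) : ℕ) : ℝ) ^ 2)⁻¹ := by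
      intro n
      refine (hRt _).trans ?_
      have hnX : X < ((n + (L + 1) : ℕ) : ℝ) := by
        have h3 := Nat.lt_floor_add_one X
        push_cast
        have h4 : (0 : ℝ) ≤ n := Nat.cast_nonneg n
        linarith
      have h2 := exp_tail (m := m) (J := J) hJ hd hQ hdQ hR hRQ hX hεJ
      have hXp : 0 < X ^ (J - 2) := by positivity
      calc C1 * M * δ⁻¹ ^ (m * (m + J)) *
            (Real.exp 1 * R) ^ (((m * (m + J) : ℕ) : ℝ) - (m : ℝ) ^ 2 / 2) *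
              (((n + (L + 1) : ℕ) : ℝ) ^ J)⁻¹
          = C1 * M * (δ⁻¹ ^ (m * (m + J)) *
            (Real.exp 1 * R) ^ (((m * (m + J) : ℕ) : ℝ) - (m : ℝ) ^ 2 / 2)) *
              (((n + (L + 1) : ℕ) : ℝ) ^ J)⁻¹ := by ring
        _ ≤ C1 * M * (Real.exp K * X ^ (J - 2)) *
            ((X ^ (J - 2))⁻¹ * (((n + (L + 1) : ℕ) : ℝ) ^ 2)⁻¹) := by
            refine mul_le_mul ?_ (inv_tail hJ hX0 hnX) (by positivity) (by positivity)
            exact mul_le_mul_of_nonneg_left h2 (by positivity)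
        _ = C1 * M * Real.exp K * (((n + (L + 1) : ℕ) : ℝ) ^ 2)⁻¹ := by
            field_simp
    have hZs' : Summable fun n : ℕ => (((n + (L + 1) : ℕ) : ℝ) ^ 2)⁻¹ :=
      (summable_nat_add_iff (f := fun n : ℕ => ((n : ℝ) ^ 2)⁻¹) (L + 1)).2 hZs
    have hZle : ∑' n : ℕ, (((n + (L + 1) : ℕ) : ℝ) ^ 2)⁻¹ ≤ Z := by
      rw [hZ, ← hZs.sum_add_tsum_nat_add (L + 1)]
      have : 0 ≤ ∑ n ∈ Finset.range (L + 1), ((n : ℝ) ^ 2)⁻¹ :=
        Finset.sum_nonneg fun n _ => by positivity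
      linarith
    calc ‖∑' n : ℕ, aT m ψ lam t (Wq w R) (n + (L + 1))‖
        ≤ ∑' n : ℕ, C1 * M * Real.exp K * (((n + (L + 1) : ℕ) : ℝ) ^ 2)⁻¹ :=
          tsum_of_norm_bounded (hZs'.mul_left _).hasSum h1
      _ = C1 * M * Real.exp K * ∑' n : ℕ, (((n + (L + 1) : ℕ) : ℝ) ^ 2)⁻¹ := by
          rw [tsum_mul_left]
      _ ≤ C1 * M * Real.exp K * Z := mul_le_mul_of_nonneg_left hZle (by positivity)
  have hmain : ‖∑ n ∈ Finset.range (L + 1), aT m ψ lam t (W2 w (Real.log R0) (Real.log R)) n‖ ≤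
      2 / ε * Q ^ ε * B * JK m k lam X t := by
    have h1 : ∑ n ∈ Finset.range (L + 1), aT m ψ lam t (W2 w (Real.log R0) (Real.log R)) n =
        ∑ n ∈ Finset.Icc 1 L, aT m ψ lam t (W2 w (Real.log R0) (Real.log R)) n := by
      refine (Finset.sum_subset (fun n hn => ?_) fun n _ hn => ?_).symm
      · have := Finset.mem_Icc.1 hn
        exact Finset.mem_range.2 (by omega)
      · have hn0 : ¬ 1 ≤ n := by
          intro h2
          have h3 := Finset.mem_range.1 (by assumption : n ∈ Finset.range (L + 1))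
          exact hn (Finset.mem_Icc.2 ⟨h2, by omega⟩)
        unfold aT tt
        simp only [hn0, if_false, zero_mul, mul_zero, integral_zero]
    rw [h1]
    refine (d_sum h hw hlog t X B hMel).trans ?_
    have h2 : Real.log R - Real.log R0 ≤ 2 / ε * Q ^ ε := by
      have h3 : Real.log R - Real.log R0 = Real.log (R / δ) + Real.log Q := by
        rw [hR0d, Real.log_div hd.ne' hQ0.ne', Real.log_div hR0.ne' hd.ne']
        ring
      have h4 : Real.log (R / δ) ≤ Real.log Q := Real.log_le_log (by positivity) hRQ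
      have h5 := Real.log_le_rpow_div hQ0.le hε
      rw [h3]
      calc Real.log (R / δ) + Real.log Q ≤ 2 * (Q ^ ε / ε) := by linarith
        _ = 2 / ε * Q ^ ε := by ring
    exact mul_le_mul_of_nonneg_right (mul_le_mul_of_nonneg_right h2 hB) hJK
  have hQe : 1 ≤ Q ^ ε := Real.one_le_rpow (by linarith) hε.le
  have hEZ : 0 ≤ 2 * Real.exp K * Z := by positivity
  have hε' : 0 < 2 / ε := by positivity
  calc ‖HW m w R ψ lam t‖
      = ‖∑ n ∈ Finset.range (L + 1), aT m ψ lam t (Wq w R0) n +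
          ∑ n ∈ Finset.range (L + 1), aT m ψ lam t (W2 w (Real.log R0) (Real.log R)) n +
          ∑' n : ℕ, aT m ψ lam t (Wq w R) (n + (L + 1))‖ := by
        rw [hHW, ← hsum.sum_add_tsum_nat_add (L + 1), ← Finset.sum_add_distrib]
        congr 2
        exact Finset.sum_congr rfl fun n _ => hsplit n
    _ ≤ C1 * M * Real.exp K * Z + 2 / ε * Q ^ ε * B * JK m k lam X t +
          C1 * M * Real.exp K * Z :=
        (norm_add_le _ _).trans (add_le_add ((norm_add_le _ _).trans (add_le_add hlow hmain))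
          htail)
    _ = (2 * Real.exp K * Z) * (M * C1) * 1 + 2 / ε * Q ^ ε * (B * JK m k lam X t) := by ring
    _ ≤ (2 * Real.exp K * Z) * (M * C1) * Q ^ ε + 2 / ε * Q ^ ε * (B * JK m k lam X t) +
          ((2 * Real.exp K * Z) * Q ^ ε * (B * JK m k lam X t) + 2 / ε * Q ^ ε * (M * C1)) := by
        have h1 : (2 * Real.exp K * Z) * (M * C1) * 1 ≤ (2 * Real.exp K * Z) * (M * C1) * Q ^ ε :=
          mul_le_mul_of_nonneg_left hQe (by positivity)
        have h2 : 0 ≤ (2 * Real.exp K * Z) * Q ^ ε * (B * JK m k lam X t) := by positivity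
        have h3 : 0 ≤ 2 / ε * Q ^ ε * (M * C1) := by positivity
        linarith
    _ = (2 * Real.exp K * Z + 2 / ε) * Q ^ ε * (M * C1 + B * JK m k lam X t) := by ring

end Pool.Agent.H91.GHY
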